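import Mathlib

namespace Pool.Agent.E8helper87.GvasTree

/-- Derivation forests of a grammar with integer terminals, decorated with counter values:
every constructor stores the counter value before it. -/
inductive FT (N : Type*) : Type _
  | nil (x : ℕ) : FT N
  | term (x : ℕ) (z : ℤ) (t : FT N) : FT N
  | nt (x : ℕ) (r : ContextFreeRule ℤ N) (s t : FT N) : FT N

namespace FT

variable {N : Type*}

def lo : FT N → ℕ
  | nil x => x
  | term x _ _ => x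
  | nt x _ _ _ => x

def hi : FT N → ℕ
  | nil x => x
  | term _ _ t => hi t
  | nt _ _ _ t => hi t

def word : FT N → List (Symbol ℤ N)
  | nil _ => []
  | term _ z t => Symbol.terminal z :: word t
  | nt _ r _ t => Symbol.nonterminal r.input :: word t

def size : FT N → ℕ
  | nil _ => 0
  | term _ _ t => size t + 1
  | nt _ _ s t => size s + size t + 1

def Valid (R : Finset (ContextFreeRule ℤ N)) : FT N → Prop
  | nil _ => True
  | term x z t => (lo t : ℤ) = x + z ∧ Valid R t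
  | nt x r s t => r ∈ R ∧ word s = r.output ∧ lo s = x ∧ hi s = lo t ∧ Valid R s ∧ Valid R t

/-- same word, larger end values -/
def Le (s t : FT N) : Prop := word s = word t ∧ lo s ≤ lo t ∧ hi s ≤ hi t

theorem Le.refl (s : FT N) : Le s s := ⟨rfl, le_rfl, le_rfl⟩

theorem Le.trans {s t u : FT N} (h : Le s t) (h' : Le t u) : Le s u :=
  ⟨h.1.trans h'.1, h.2.1.trans h'.2.1, h.2.2.trans h'.2.2⟩

/-- the embedding order -/
inductive K : FT N → FT N → Prop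
  | nil {x y : ℕ} (h : x ≤ y) : K (nil x) (nil y)
  | term {x y : ℕ} {z : ℤ} {s t : FT N} (h : x ≤ y) (hl : Le s t) (hk : K s t) :
      K (term x z s) (term y z t)
  | nt {x y : ℕ} {r : ContextFreeRule ℤ N} {s₁ s₂ t₁ t₂ : FT N} (h : x ≤ y) (hl₁ : Le s₁ t₁)
      (hl₂ : Le s₂ t₂) (hk₁ : K s₁ t₁) (hk₂ : K s₂ t₂) : K (nt x r s₁ s₂) (nt y r t₁ t₂)
  | inTerm {y : ℕ} {z : ℤ} {s t : FT N} (hk : K s t) : K s (term y z t)
  | inL {y : ℕ} {r : ContextFreeRule ℤ N} {s t₁ t₂ : FT N} (hk : K s t₁) : K s (nt y r t₁ t₂)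
  | inR {y : ℕ} {r : ContextFreeRule ℤ N} {s t₁ t₂ : FT N} (hk : K s t₂) : K s (nt y r t₁ t₂)

theorem K.refl (s : FT N) : K s s := by
  induction s with
  | nil x => exact K.nil le_rfl
  | term x z t ih => exact K.term le_rfl (Le.refl _) ih
  | nt x r s t ih₁ ih₂ => exact K.nt le_rfl (Le.refl _) (Le.refl _) ih₁ ih₂

theorem K.trans {s t u : FT N} (h : K s t) (h' : K t u) : K s u := by
  induction h' generalizing s with
  | nil hxy =>
    cases h with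
    | nil h => exact K.nil (h.trans hxy)
  | term hxy hl hk ih =>
    cases h with
    | term h hl' hk' => exact K.term (h.trans hxy) (hl'.trans hl) (ih hk')
    | inTerm hk' => exact K.inTerm (ih hk')
  | nt hxy hl₁ hl₂ hk₁ hk₂ ih₁ ih₂ =>
    cases h with
    | nt h hl₁' hl₂' hk₁' hk₂' =>
      exact K.nt (h.trans hxy) (hl₁'.trans hl₁) (hl₂'.trans hl₂) (ih₁ hk₁') (ih₂ hk₂')
    | inL hk' => exact K.inL (ih₁ hk')
    | inR hk' => exact K.inR (ih₂ hk')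
  | inTerm hk ih => exact K.inTerm (ih h)
  | inL hk ih => exact K.inL (ih h)
  | inR hk ih => exact K.inR (ih h)

/-- top matches -/
inductive M : FT N → FT N → Prop
  | nil {x y : ℕ} (h : x ≤ y) : M (nil x) (nil y)
  | term {x y : ℕ} {z : ℤ} {s t : FT N} (h : x ≤ y) (hl : Le s t) (hk : K s t) :
      M (term x z s) (term y z t)
  | nt {x y : ℕ} {r : ContextFreeRule ℤ N} {s₁ s₂ t₁ t₂ : FT N} (h : x ≤ y) (hl₁ : Le s₁ t₁)
      (hl₂ : Le s₂ t₂) (hk₁ : K s₁ t₁) (hk₂ : K s₂ t₂) : M (nt x r s₁ s₂) (nt y r t₁ t₂)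

theorem M.le {s t : FT N} (h : M s t) : Le s t := by
  cases h with
  | nil h => exact ⟨rfl, h, h⟩
  | term h hl hk => exact ⟨by simp [word, hl.1], h, hl.2.2⟩
  | nt h hl₁ hl₂ hk₁ hk₂ => exact ⟨by simp [word, hl₂.1], h, hl₂.2.2⟩

variable {R : Finset (ContextFreeRule ℤ N)}

theorem shift (t : FT N) (ht : Valid R t) (d : ℕ) :
    ∃ t' : FT N, Valid R t' ∧ word t' = word t ∧ lo t' = lo t + d ∧ hi t' = hi t + d := by
  induction t with
  | nil x => exact ⟨nil (x + d), trivial, rfl, rfl, rfl⟩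
  | term x z t ih =>
    obtain ⟨h1, h2⟩ := ht
    obtain ⟨t', v, w, l, h⟩ := ih h2
    refine ⟨term (x + d) z t', ⟨?_, v⟩, by simp [word, w], rfl, h⟩
    rw [l]; push_cast; linarith
  | nt x r s t ih₁ ih₂ =>
    obtain ⟨h1, h2, h3, h4, h5, h6⟩ := ht
    obtain ⟨s', v, w, l, h⟩ := ih₁ h5
    obtain ⟨t', v', w', l', h'⟩ := ih₂ h6
    refine ⟨nt (x + d) r s' t', ⟨h1, w.trans h2, ?_, ?_, v, v'⟩, by simp [word, w'], rfl, h'⟩
    · rw [l, h3]
    · rw [h, l', h4]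

/-- every embedding goes through a context -/
theorem context {s t : FT N} (h : K s t) (ht : Valid R t) :
    ∃ σ : FT N, Valid R σ ∧ M s σ ∧ ∀ w' : FT N, Valid R w' → word w' = word σ → ∀ d₁ d₂ : ℕ,
      lo w' = lo σ + d₁ → hi w' = hi σ + d₂ →
      ∃ w : FT N, Valid R w ∧ word w = word t ∧ lo w = lo t + d₁ ∧ hi w = hi t + d₂ ∧
        (K s w' → K s w) := by
  induction h with
  | nil h =>
    exact ⟨_, ht, M.nil h, fun w' v w d₁ d₂ l h => ⟨w', v, w, l, h, id⟩⟩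
  | term h hl hk ih =>
    exact ⟨_, ht, M.term h hl hk, fun w' v w d₁ d₂ l h => ⟨w', v, w, l, h, id⟩⟩
  | nt h hl₁ hl₂ hk₁ hk₂ ih₁ ih₂ =>
    exact ⟨_, ht, M.nt h hl₁ hl₂ hk₁ hk₂, fun w' v w d₁ d₂ l h => ⟨w', v, w, l, h, id⟩⟩
  | @inTerm y z s t hk ih =>
    obtain ⟨h1, h2⟩ := ht
    obtain ⟨σ, vσ, m, H⟩ := ih h2
    refine ⟨σ, vσ, m, fun w' v w d₁ d₂ l h => ?_⟩
    obtain ⟨u, vu, wu, lu, hu, ku⟩ := H w' v w d₁ d₂ l h
    refine ⟨term (y + d₁) z u, ⟨?_, vu⟩, by simp [word, wu], rfl, hu, fun k => K.inTerm (ku k)⟩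
    rw [lu]; push_cast; linarith
  | @inL y r s t₁ t₂ hk ih =>
    obtain ⟨h1, h2, h3, h4, h5, h6⟩ := ht
    obtain ⟨σ, vσ, m, H⟩ := ih h5
    refine ⟨σ, vσ, m, fun w' v w d₁ d₂ l h => ?_⟩
    obtain ⟨u, vu, wu, lu, hu, ku⟩ := H w' v w d₁ d₂ l h
    obtain ⟨t', v', w'', l', h'⟩ := shift t₂ h6 d₂
    refine ⟨nt (y + d₁) r u t', ⟨h1, wu.trans h2, ?_, ?_, vu, v'⟩, by simp [word, w''], rfl, h',
      fun k => K.inL (ku k)⟩
    · rw [lu, h3]
    · rw [hu, l', h4]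
  | @inR y r s t₁ t₂ hk ih =>
    obtain ⟨h1, h2, h3, h4, h5, h6⟩ := ht
    obtain ⟨σ, vσ, m, H⟩ := ih h6
    refine ⟨σ, vσ, m, fun w' v w d₁ d₂ l h => ?_⟩
    obtain ⟨u, vu, wu, lu, hu, ku⟩ := H w' v w d₁ d₂ l h
    obtain ⟨t', v', w'', l', h'⟩ := shift t₁ h5 d₁
    refine ⟨nt (y + d₁) r t' u, ⟨h1, w''.trans h2, ?_, ?_, v', vu⟩, by simp [word, wu], rfl, hu,
      fun k => K.inR (ku k)⟩
    · rw [l', h3]
    · rw [h', lu, h4]

/-- amalgamation -/
theorem amalgam (s : FT N) (hs : Valid R s) : ∀ t r : FT N, Valid R t → Valid R r →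
    Le s t → K s t → Le s r → K s r →
    ∃ w : FT N, Valid R w ∧ Le s w ∧ K s w ∧ lo w + lo s = lo t + lo r ∧
      hi w + hi s = hi t + hi r := by
  -- first the inner amalgam
  have inner : ∀ s : FT N, Valid R s →
      (∀ s' : FT N, size s' < size s → Valid R s' → ∀ t r : FT N, Valid R t → Valid R r →
        Le s' t → K s' t → Le s' r → K s' r →
        ∃ w : FT N, Valid R w ∧ Le s' w ∧ K s' w ∧ lo w + lo s' = lo t + lo r ∧
          hi w + hi s' = hi t + hi r) →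
      ∀ σ τ : FT N, Valid R σ → Valid R τ → M s σ → M s τ →
        ∃ w : FT N, Valid R w ∧ word w = word s ∧ K s w ∧ lo w + lo s = lo σ + lo τ ∧
          hi w + hi s = hi σ + hi τ := by
    intro s hs IH σ τ vσ vτ mσ mτ
    cases mσ with
    | @nil x y h =>
      cases mτ with
      | @nil _ y' h' =>
        refine ⟨nil (y + y' - x), trivial, rfl, K.nil (by omega), ?_, ?_⟩ <;>
          simp only [lo, hi] <;> omega
    | @term x y z s' t' h hl hk =>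
      cases mτ with
      | @term _ y' _ _ t'' h' hl' hk' =>
        obtain ⟨a1, a2⟩ := vσ
        obtain ⟨b1, b2⟩ := vτ
        obtain ⟨c1, c2⟩ := hs
        obtain ⟨w, vw, lw, kw, e1, e2⟩ := IH s' (by simp [size]) c2 t' t'' a2 b2 hl hk hl' hk'
        refine ⟨term (y + y' - x) z w, ⟨?_, vw⟩, ?_, K.term (by omega) lw kw, ?_, ?_⟩
        · omega
        · simp [word, lw.1]
        · simp only [lo]; omega
        · simpa only [hi] using e2
    | @nt x y r s₁ s₂ t₁ t₂ h hl₁ hl₂ hk₁ hk₂ =>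
      cases mτ with
      | @nt _ y' _ _ _ u₁ u₂ h' hl₁' hl₂' hk₁' hk₂' =>
        obtain ⟨a1, a2, a3, a4, a5, a6⟩ := vσ
        obtain ⟨b1, b2, b3, b4, b5, b6⟩ := vτ
        obtain ⟨c1, c2, c3, c4, c5, c6⟩ := hs
        obtain ⟨w₁, vw₁, lw₁, kw₁, e1, e2⟩ :=
          IH s₁ (by simp only [size]; omega) c5 t₁ u₁ a5 b5 hl₁ hk₁ hl₁' hk₁'
        obtain ⟨w₂, vw₂, lw₂, kw₂, e1', e2'⟩ :=
          IH s₂ (by simp only [size]; omega) c6 t₂ u₂ a6 b6 hl₂ hk₂ hl₂' hk₂'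
        refine ⟨nt (y + y' - x) r w₁ w₂, ⟨a1, lw₁.1.symm.trans c2, ?_, ?_, vw₁, vw₂⟩, ?_,
          K.nt (by omega) lw₁ lw₂ kw₁ kw₂, ?_, ?_⟩
        · omega
        · omega
        · simp [word, lw₂.1]
        · simp only [lo]; omega
        · simpa only [hi] using e2'
  induction hn : size s using Nat.strong_induction_on generalizing s with
  | _ n ih =>
    subst hn
    intro t r vt vr lt kt lr kr
    obtain ⟨σ, vσ, mσ, Hσ⟩ := context (R := R) kt vt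
    obtain ⟨τ, vτ, mτ, Hτ⟩ := context (R := R) kr vr
    obtain ⟨w₀, vw₀, ww₀, kw₀, e1, e2⟩ := inner s hs
      (fun s' h' v' => ih (size s') h' s' v' rfl) σ τ vσ vτ mσ mτ
    have lσ := mσ.le
    have lτ := mτ.le
    obtain ⟨w₁, vw₁, ww₁, lw₁, hw₁, kw₁⟩ := Hτ w₀ vw₀ (ww₀.trans lτ.1) (lo σ - lo s) (hi σ - hi s)
      (by have := lσ.2.1; omega) (by have := lσ.2.2; omega)
    obtain ⟨w₂, vw₂, ww₂, lw₂, hw₂, kw₂⟩ := Hσ w₁ vw₁ (ww₁.trans (lr.1.symm.trans lσ.1))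
      (lo r - lo s) (hi r - hi s)
      (by have := lσ.2.1; have := lr.2.1; omega) (by have := lσ.2.2; have := lr.2.2; omega)
    refine ⟨w₂, vw₂, ⟨?_, ?_, ?_⟩, kw₂ (kw₁ kw₀), ?_, ?_⟩
    · rw [ww₂, lt.1]
    · have := lt.2.1; omega
    · have := lt.2.2; omega
    · have := lt.2.1; have := lr.2.1; omega
    · have := lt.2.2; have := lr.2.2; omega

end FT

end Pool.Agent.E8helper87.GvasTree
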