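import Mathlib
import Pool.Agent.E8helper87.GvasTree

namespace Pool.Agent.E8helper87.GvasTree

namespace FT

variable {N : Type*}

instance : IsPreorder (FT N) (K (N := N)) where
  refl := K.refl
  trans _ _ _ := K.trans

instance : IsPreorder (FT N) (Le (N := N)) where
  refl := Le.refl
  trans _ _ _ := Le.trans

/-- the combined order -/
def KL (s t : FT N) : Prop := Le s t ∧ K s t

instance : IsPreorder (FT N) (KL (N := N)) where
  refl s := ⟨Le.refl s, K.refl s⟩
  trans _ _ _ h h' := ⟨h.1.trans h'.1, h.2.trans h'.2⟩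

theorem le_pwo {W : Set (List (Symbol ℤ N))} (hW : W.Finite) {S : Set (FT N)}
    (hS : ∀ t ∈ S, word t ∈ W) : S.PartiallyWellOrderedOn (Le (N := N)) := by
  rw [Set.partiallyWellOrderedOn_iff_exists_lt]
  intro f hf
  have h1 : W.PartiallyWellOrderedOn (· = ·) := hW.partiallyWellOrderedOn
  obtain ⟨g, hg⟩ := h1.exists_monotone_subseq (f := fun n => word (f n)) fun n => hS _ (hf n)
  have h2 : (Set.univ : Set (ℕ × ℕ)).IsPWO := Set.isPWO_of_wellQuasiOrderedLE _
  obtain ⟨m, n, hmn, h⟩ := h2.exists_lt (f := fun n => (lo (f (g n)), hi (f (g n))))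
    fun n => Set.mem_univ _
  exact ⟨g m, g n, g.strictMono hmn, hg m n hmn.le, h.1, h.2⟩

theorem kl_pwo {W : Set (List (Symbol ℤ N))} (hW : W.Finite) {S : Set (FT N)}
    (hS : ∀ t ∈ S, word t ∈ W) (hK : S.PartiallyWellOrderedOn (K (N := N))) :
    S.PartiallyWellOrderedOn (KL (N := N)) := by
  rw [Set.partiallyWellOrderedOn_iff_exists_lt]
  intro f hf
  obtain ⟨g, hg⟩ := (le_pwo hW hS).exists_monotone_subseq (f := f) hf
  obtain ⟨m, n, hmn, h⟩ := hK.exists_lt (f := fun n => f (g n)) fun n => hf _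
  exact ⟨g m, g n, g.strictMono hmn, hg m n hmn.le, h⟩

/-- the immediate subforests -/
def kids : FT N → Set (FT N)
  | nil _ => ∅
  | term _ _ t => {t}
  | nt _ _ s t => {s, t}

theorem kids_size {s t : FT N} (h : s ∈ kids t) : size s < size t := by
  cases t with
  | nil x => exact h.elim
  | term x z t => obtain rfl : s = t := h; simp [size]
  | nt x r t₁ t₂ =>
    rcases h with h | h
    · subst h; simp only [size]; omega
    · obtain rfl : s = t₂ := h
      simp only [size]; omega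

theorem kids_K {s t u : FT N} (h : s ∈ kids t) (hk : K u s) : K u t := by
  cases t with
  | nil x => exact h.elim
  | term x z t => obtain rfl : s = t := h; exact K.inTerm hk
  | nt x r t₁ t₂ =>
    rcases h with h | h
    · subst h; exact K.inL hk
    · obtain rfl : s = t₂ := h
      exact K.inR hk

/-- a set of words closed under tails and containing the right-hand sides -/
structure Closed (R : Finset (ContextFreeRule ℤ N)) (W : Set (List (Symbol ℤ N))) : Prop where
  fin : W.Finite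
  tail : ∀ a w, a :: w ∈ W → w ∈ W
  out : ∀ r ∈ R, r.output ∈ W

variable {R : Finset (ContextFreeRule ℤ N)} {W : Set (List (Symbol ℤ N))}

/-- valid forests with words in `W` -/
def Good (R : Finset (ContextFreeRule ℤ N)) (W : Set (List (Symbol ℤ N))) : Set (FT N) :=
  {t | Valid R t ∧ word t ∈ W}

theorem kids_good (hW : Closed R W) {s t : FT N} (h : s ∈ kids t) (ht : t ∈ Good R W) :
    s ∈ Good R W := by
  cases t with
  | nil x => exact h.elim
  | term x z t =>
    obtain rfl : s = t := h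
    exact ⟨ht.1.2, hW.tail _ _ ht.2⟩
  | nt x r t₁ t₂ =>
    obtain ⟨⟨h1, h2, h3, h4, h5, h6⟩, h7⟩ := ht
    rcases h with h | h
    · subst h; exact ⟨h5, by rw [h2]; exact hW.out r h1⟩
    · obtain rfl : s = t₂ := h
      exact ⟨h6, hW.tail _ _ h7⟩

/-- Kruskal's theorem for decorated forests -/
theorem good_pwo (hW : Closed R W) : (Good R W).PartiallyWellOrderedOn (K (N := N)) := by
  rw [Set.PartiallyWellOrderedOn.iff_not_exists_isMinBadSeq size]
  rintro ⟨f, hf, hmin⟩
  -- the immediate subforests are well quasi ordered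
  set C : Set (FT N) := {s | ∃ n, s ∈ kids (f n)} with hC
  have hCgood : ∀ s ∈ C, s ∈ Good R W := by
    rintro s ⟨n, hn⟩
    exact kids_good hW hn (hf.1 n)
  have hCpwo : C.PartiallyWellOrderedOn (K (N := N)) := by
    rw [Set.partiallyWellOrderedOn_iff_exists_lt]
    intro g hg
    choose φ hφ using hg
    obtain ⟨n₀, hn₀⟩ : ∃ n₀, ∀ n, φ n₀ ≤ φ n :=
      ⟨Function.argmin φ, fun n => Function.argmin_le φ n⟩
    by_contra hbad
    push Not at hbad
    let h : ℕ → FT N := fun i => if i < φ n₀ then f i else g (n₀ + (i - φ n₀))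
    refine hmin (φ n₀) h ?_ ?_ ⟨?_, ?_⟩
    · intro m hm
      simp only [h, if_pos hm]
    · simp only [h, lt_irrefl, if_false, Nat.sub_self, Nat.add_zero]
      exact kids_size (hφ n₀)
    · intro n
      by_cases hn : n < φ n₀
      · simp only [h, if_pos hn]; exact hf.1 n
      · simp only [h, if_neg hn]; exact kids_good hW (hφ _) (hf.1 _)
    · intro m n hmn hK
      by_cases hm : m < φ n₀
      · by_cases hn : n < φ n₀
        · simp only [h, if_pos hm, if_pos hn] at hK
          exact hf.2 m n hmn hK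
        · simp only [h, if_pos hm, if_neg hn] at hK
          have h1 := kids_K (hφ (n₀ + (n - φ n₀))) hK
          exact hf.2 m _ (lt_of_lt_of_le hm (hn₀ _)) h1
      · have hn : ¬ n < φ n₀ := by omega
        simp only [h, if_neg hm, if_neg hn] at hK
        exact hbad _ _ (by omega) hK
  have hCKL : C.PartiallyWellOrderedOn (KL (N := N)) :=
    kl_pwo hW.fin (fun t ht => (hCgood t ht).2) hCpwo
  -- the three kinds
  have hnil : {t : FT N | ∃ x, t = nil x}.PartiallyWellOrderedOn (K (N := N)) := by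
    rw [Set.partiallyWellOrderedOn_iff_exists_lt]
    intro g hg
    choose x hx using hg
    obtain ⟨m, n, hmn, h⟩ := wellQuasiOrdered_le x
    exact ⟨m, n, hmn, by rw [hx m, hx n]; exact K.nil h⟩
  have hterm : {t : FT N | t ∈ Set.range f ∧ ∃ x z s, t = term x z s}.PartiallyWellOrderedOn
      (K (N := N)) := by
    rw [Set.partiallyWellOrderedOn_iff_exists_lt]
    intro g hg
    choose hr x z s hg using hg
    obtain ⟨g₁, h₁⟩ := (wellQuasiOrdered_le (α := ℕ)).exists_monotone_subseq x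
    have hZ : ({z : ℤ | ∃ w, Symbol.terminal z :: w ∈ W}).Finite := by
      have : ({z : ℤ | ∃ w, Symbol.terminal z :: w ∈ W}) ⊆
          (fun w : List (Symbol ℤ N) => match w with
            | Symbol.terminal z :: _ => z
            | _ => 0) '' W := by
        rintro z ⟨w, hw⟩
        exact ⟨_, hw, rfl⟩
      exact (hW.fin.image _).subset this
    have hz : ∀ n, z n ∈ {z : ℤ | ∃ w, Symbol.terminal z :: w ∈ W} := by
      intro n
      obtain ⟨i, hi⟩ := hr n
      have := (hf.1 i).2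
      rw [hi, hg n] at this
      exact ⟨_, this⟩
    obtain ⟨g₂, h₂⟩ := (hZ.partiallyWellOrderedOn (r := (· = ·))).exists_monotone_subseq
      (f := fun n => z (g₁ n)) fun n => hz _
    have hs : ∀ n, s n ∈ C := by
      intro n
      obtain ⟨i, hi⟩ := hr n
      refine ⟨i, ?_⟩
      rw [hi, hg n]
      rfl
    obtain ⟨m, n, hmn, h₃⟩ := hCKL.exists_lt (f := fun n => s (g₁ (g₂ n))) fun n => hs _
    refine ⟨g₁ (g₂ m), g₁ (g₂ n), g₁.strictMono (g₂.strictMono hmn), ?_⟩
    rw [hg (g₁ (g₂ m)), hg (g₁ (g₂ n))]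
    have hzz : z (g₁ (g₂ m)) = z (g₁ (g₂ n)) := h₂ m n hmn.le
    rw [hzz]
    exact K.term (h₁ _ _ (g₂.strictMono hmn).le) h₃.1 h₃.2
  have hnt : {t : FT N | t ∈ Set.range f ∧ ∃ x r s u, t = nt x r s u}.PartiallyWellOrderedOn
      (K (N := N)) := by
    rw [Set.partiallyWellOrderedOn_iff_exists_lt]
    intro g hg
    choose hr x r s u hg using hg
    obtain ⟨g₁, h₁⟩ := (wellQuasiOrdered_le (α := ℕ)).exists_monotone_subseq x
    have hrR : ∀ n, r n ∈ (R : Set (ContextFreeRule ℤ N)) := by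
      intro n
      obtain ⟨i, hi⟩ := hr n
      have := (hf.1 i).1
      rw [hi, hg n] at this
      exact this.1
    obtain ⟨g₂, h₂⟩ := (R.finite_toSet.partiallyWellOrderedOn (r := (· = ·))).exists_monotone_subseq
      (f := fun n => r (g₁ n)) fun n => hrR _
    have hs : ∀ n, s n ∈ C := by
      intro n
      obtain ⟨i, hi⟩ := hr n
      refine ⟨i, ?_⟩
      rw [hi, hg n]
      exact Or.inl rfl
    have hu : ∀ n, u n ∈ C := by
      intro n
      obtain ⟨i, hi⟩ := hr n
      refine ⟨i, ?_⟩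
      rw [hi, hg n]
      exact Or.inr rfl
    obtain ⟨g₃, h₃⟩ := hCKL.exists_monotone_subseq (f := fun n => s (g₁ (g₂ n))) fun n => hs _
    obtain ⟨m, n, hmn, h₄⟩ := hCKL.exists_lt (f := fun n => u (g₁ (g₂ (g₃ n)))) fun n => hu _
    refine ⟨g₁ (g₂ (g₃ m)), g₁ (g₂ (g₃ n)),
      g₁.strictMono (g₂.strictMono (g₃.strictMono hmn)), ?_⟩
    rw [hg (g₁ (g₂ (g₃ m))), hg (g₁ (g₂ (g₃ n)))]
    have hrr : r (g₁ (g₂ (g₃ m))) = r (g₁ (g₂ (g₃ n))) := h₂ _ _ (g₃.strictMono hmn).le
    rw [hrr]
    exact K.nt (h₁ _ _ (g₂.strictMono (g₃.strictMono hmn)).le) (h₃ m n hmn.le).1 h₄.1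
      (h₃ m n hmn.le).2 h₄.2
  have hall : (Set.range f).PartiallyWellOrderedOn (K (N := N)) := by
    refine ((hnil.union hterm).union hnt).mono ?_
    rintro _ ⟨n, rfl⟩
    cases hfn : f n with
    | nil x => exact Or.inl (Or.inl ⟨x, rfl⟩)
    | term x z s => exact Or.inl (Or.inr ⟨⟨n, hfn⟩, x, z, s, rfl⟩)
    | nt x r s u => exact Or.inr ⟨⟨n, hfn⟩, x, r, s, u, rfl⟩
  obtain ⟨m, n, hmn, h⟩ := hall.exists_lt (f := f) fun n => ⟨n, rfl⟩
  exact hf.2 m n hmn h

/-- finite bases without any order assumption -/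
theorem finite_basis {α : Type*} {r : α → α → Prop} {S : Set α}
    (h : S.PartiallyWellOrderedOn r) : ∃ F : Finset α, (∀ x ∈ F, x ∈ S) ∧
      ∀ t ∈ S, ∃ s ∈ F, r s t := by
  by_contra hcon
  push Not at hcon
  obtain ⟨f, hf1, hf2⟩ := exists_seq_of_forall_finset_exists (fun x => x ∈ S)
    (fun x y => ¬ r x y) (fun s hs => by
      obtain ⟨t, ht, h⟩ := hcon s hs
      exact ⟨t, ht, h⟩)
  obtain ⟨m, n, hmn, h⟩ := h.exists_lt (f := f) hf1
  exact hf2 m n hmn h

/-- sets of naturals closed under adding a positive number are semilinear -/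
theorem semilinear_of_add_closed (S : Set ℕ) (p : ℕ) (hp : 0 < p) (h : ∀ x ∈ S, x + p ∈ S) :
    IsSemilinearSet S := by
  classical
  rw [Nat.isSemilinearSet_iff_ultimately_periodic]
  have hadd : ∀ k x, x ∈ S → x + k * p ∈ S := by
    intro k
    induction k with
    | zero => intro x hx; simpa using hx
    | succ k ih =>
      intro x hx
      have := h _ (ih x hx)
      rwa [show x + (k + 1) * p = x + k * p + p by ring]
  -- bound on the minimal elements of the classes
  have hb : ∃ B, ∀ x, x + p ∈ S → B ≤ x → x ∈ S := by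
    have : ∀ i < p, ∃ b, ∀ x, x % p = i → x + p ∈ S → b ≤ x → x ∈ S := by
      intro i hi
      by_cases hne : ∃ y ∈ S, y % p = i
      · obtain ⟨y, hy, hyi⟩ := hne
        refine ⟨y, fun x hx _ hyx => ?_⟩
        obtain ⟨k, hk⟩ : ∃ k, x = y + k * p := by
          have hmod : (x - y) % p = 0 := by
            have := (Nat.modEq_iff_dvd' hyx).1 (show y ≡ x [MOD p] by
              rw [Nat.ModEq, hx, hyi])
            exact Nat.mod_eq_zero_of_dvd this
          obtain ⟨k, hk⟩ := Nat.dvd_of_mod_eq_zero hmod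
          exact ⟨k, by rw [mul_comm, ← hk]; omega⟩
        rw [hk]; exact hadd k y hy
      · refine ⟨0, fun x hx hxp _ => ?_⟩
        exact absurd ⟨x + p, hxp, by simpa using hx⟩ hne
    choose! b hb using this
    refine ⟨∑ i ∈ Finset.range p, b i, fun x hx hB => ?_⟩
    refine hb (x % p) (Nat.mod_lt _ hp) x rfl hx (le_trans ?_ hB)
    exact Finset.single_le_sum (f := b) (fun _ _ => Nat.zero_le _)
      (Finset.mem_range.2 (Nat.mod_lt _ hp))
  obtain ⟨B, hB⟩ := hb
  exact ⟨B, p, hp, fun x hx => ⟨fun h' => h x h', fun h' => hB x h' hx⟩⟩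

/-- the values reached by valid forests -/
def vals (R : Finset (ContextFreeRule ℤ N)) (w : List (Symbol ℤ N)) (a : ℕ) : Set ℕ :=
  {b | ∃ t : FT N, Valid R t ∧ word t = w ∧ lo t = a ∧ hi t = b}

theorem vals_semilinear (hW : Closed R W) {w : List (Symbol ℤ N)} (hw : w ∈ W) (a : ℕ) :
    IsSemilinearSet (vals R w a) := by
  set A : Set (FT N) := {t | Valid R t ∧ word t = w ∧ lo t = a} with hA
  have hpwo : A.PartiallyWellOrderedOn (KL (N := N)) := by
    refine kl_pwo hW.fin (fun t ht => by rw [ht.2.1]; exact hw) ((good_pwo hW).mono ?_)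
    intro t ht
    exact ⟨ht.1, by rw [ht.2.1]; exact hw⟩
  obtain ⟨F, hF, hb⟩ := finite_basis hpwo
  let P : FT N → Set ℕ := fun s => {b | ∃ t ∈ A, KL s t ∧ hi t = b}
  have hU : vals R w a = ⋃ s ∈ F, P s := by
    ext b
    simp only [Set.mem_iUnion]
    constructor
    · rintro ⟨t, vt, wt, lt, ht⟩
      obtain ⟨s, hs, hst⟩ := hb t ⟨vt, wt, lt⟩
      exact ⟨s, hs, t, ⟨vt, wt, lt⟩, hst, ht⟩
    · rintro ⟨s, hs, t, ⟨vt, wt, lt⟩, hst, ht⟩
      exact ⟨t, vt, wt, lt, ht⟩
  rw [hU]
  refine IsSemilinearSet.biUnion_finset fun s hs => ?_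
  obtain ⟨vs, ws, ls⟩ := hF s hs
  by_cases hex : ∃ t ∈ A, KL s t ∧ hi s < hi t
  · obtain ⟨t, ht, hst, hlt⟩ := hex
    refine semilinear_of_add_closed _ (hi t - hi s) (by omega) ?_
    rintro b ⟨r, hr, hsr, hb⟩
    obtain ⟨u, vu, lu, ku, e1, e2⟩ := amalgam s vs t r ht.1 hr.1 hst.1 hst.2 hsr.1 hsr.2
    refine ⟨u, ⟨vu, lu.1.symm.trans ws, ?_⟩, ⟨lu, ku⟩, ?_⟩
    · have h1 := ht.2.2; have h2 := hr.2.2; omega
    · omega
  · push Not at hex
    have : P s = {hi s} := by
      ext b
      constructor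
      · rintro ⟨t, ht, hst, hb⟩
        have h1 := hex t ht hst
        have h2 := hst.1.2.2
        simp only [Set.mem_singleton_iff]
        omega
      · rintro rfl
        exact ⟨s, ⟨vs, ws, ls⟩, ⟨Le.refl s, K.refl s⟩, rfl⟩
    rw [this]
    exact IsSemilinearSet.singleton _

end FT

end Pool.Agent.E8helper87.GvasTree
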