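import Mathlib
import Pool.Agent.E8helper87.GvasWqo

namespace Pool.Agent.E8helper87.GvasTree

open FT

variable {G : ContextFreeGrammar ℤ}

/-- big-step generation -/
inductive Gen (G : ContextFreeGrammar ℤ) : List (Symbol ℤ G.NT) → List ℤ → Prop
  | nil : Gen G [] []
  | term {z : ℤ} {w : List (Symbol ℤ G.NT)} {v : List ℤ} (h : Gen G w v) :
      Gen G (Symbol.terminal z :: w) (z :: v)
  | nt {r : ContextFreeRule ℤ G.NT} {w : List (Symbol ℤ G.NT)} {v₁ v₂ : List ℤ}
      (hr : r ∈ G.rules) (h₁ : Gen G r.output v₁) (h₂ : Gen G w v₂) :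
      Gen G (Symbol.nonterminal r.input :: w) (v₁ ++ v₂)

theorem Gen.split {u : List (Symbol ℤ G.NT)} : ∀ {w : List (Symbol ℤ G.NT)} {v : List ℤ},
    Gen G (u ++ w) v → ∃ v₁ v₂, v = v₁ ++ v₂ ∧ Gen G u v₁ ∧ Gen G w v₂ := by
  induction u with
  | nil => intro w v h; exact ⟨[], v, rfl, Gen.nil, h⟩
  | cons x u ih =>
    intro w v h
    cases h with
    | term h =>
      obtain ⟨v₁, v₂, rfl, h1, h2⟩ := ih h
      exact ⟨_ :: v₁, v₂, rfl, Gen.term h1, h2⟩
    | nt hr h₁ h₂ =>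
      obtain ⟨v₁, v₂, rfl, h1, h2⟩ := ih h₂
      exact ⟨_ ++ v₁, v₂, by simp, Gen.nt hr h₁ h1, h2⟩

theorem gen_terminals (v : List ℤ) : Gen G (v.map Symbol.terminal) v := by
  induction v with
  | nil => exact Gen.nil
  | cons z v ih => exact Gen.term ih

theorem gen_of_rewrites {r : ContextFreeRule ℤ G.NT} (hr : r ∈ G.rules)
    {w w' : List (Symbol ℤ G.NT)} (h : r.Rewrites w w') : ∀ {v : List ℤ}, Gen G w' v → Gen G w v := by
  induction h with
  | head s =>
    intro v hv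
    obtain ⟨v₁, v₂, rfl, h1, h2⟩ := hv.split
    exact Gen.nt hr h1 h2
  | cons x h ih =>
    intro v hv
    cases hv with
    | term hv => exact Gen.term (ih hv)
    | nt hr' h₁ h₂ => exact Gen.nt hr' h₁ (ih h₂)

theorem gen_of_derives {w : List (Symbol ℤ G.NT)} {v : List ℤ}
    (h : G.Derives w (v.map Symbol.terminal)) : Gen G w v := by
  induction h using Relation.ReflTransGen.head_induction_on with
  | refl => exact gen_terminals v
  | head h _ ih =>
    obtain ⟨r, hr, hrw⟩ := h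
    exact gen_of_rewrites hr hrw ih

theorem derives_of_gen {w : List (Symbol ℤ G.NT)} {v : List ℤ} (h : Gen G w v) :
    G.Derives w (v.map Symbol.terminal) := by
  induction h with
  | nil => exact Relation.ReflTransGen.refl
  | @term z w v h ih =>
    simpa using ih.append_left [Symbol.terminal z]
  | @nt r w v₁ v₂ hr h₁ h₂ ih₁ ih₂ =>
    have h1 : G.Derives (Symbol.nonterminal r.input :: w) (r.output ++ w) :=
      Relation.ReflTransGen.single ⟨r, hr, ContextFreeRule.Rewrites.head w⟩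
    have h2 : G.Derives (r.output ++ w) (v₁.map Symbol.terminal ++ w) := ih₁.append_right w
    have h3 := ih₂.append_left (v₁.map Symbol.terminal)
    rw [List.map_append]
    exact h1.trans (h2.trans h3)

/-- firing a list of integers from `a` to `b`, staying nonnegative -/
def Fire (v : List ℤ) (a b : ℕ) : Prop :=
  (∀ j ≤ v.length, 0 ≤ (a : ℤ) + (v.take j).sum) ∧ (a : ℤ) + v.sum = b

theorem fire_nil {a b : ℕ} : Fire [] a b ↔ a = b := by
  simp [Fire]

theorem fire_cons {z : ℤ} {v : List ℤ} {a b : ℕ} :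
    Fire (z :: v) a b ↔ ∃ c : ℕ, (c : ℤ) = a + z ∧ Fire v c b := by
  constructor
  · rintro ⟨h1, h2⟩
    have h0 := h1 1 (by simp)
    simp at h0
    refine ⟨((a : ℤ) + z).toNat, Int.toNat_of_nonneg h0, ?_, ?_⟩
    · intro j hj
      have := h1 (j + 1) (by simpa using hj)
      rw [List.take_succ_cons, List.sum_cons] at this
      rw [Int.toNat_of_nonneg h0]
      linarith
    · rw [Int.toNat_of_nonneg h0]
      rw [List.sum_cons] at h2
      linarith
  · rintro ⟨c, hc, h1, h2⟩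
    refine ⟨?_, ?_⟩
    · intro j hj
      cases j with
      | zero => simp
      | succ j =>
        have := h1 j (by simpa using hj)
        rw [List.take_succ_cons, List.sum_cons]
        linarith
    · rw [List.sum_cons]
      linarith

theorem fire_append {v₁ v₂ : List ℤ} : ∀ {a b : ℕ},
    Fire (v₁ ++ v₂) a b ↔ ∃ c : ℕ, Fire v₁ a c ∧ Fire v₂ c b := by
  induction v₁ with
  | nil => intro a b; simp [fire_nil]
  | cons z v₁ ih =>
    intro a b
    simp only [List.cons_append, fire_cons, ih]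
    constructor
    · rintro ⟨c, hc, d, h1, h2⟩; exact ⟨d, ⟨c, hc, h1⟩, h2⟩
    · rintro ⟨d, ⟨c, hc, h1⟩, h2⟩; exact ⟨c, hc, d, h1, h2⟩

theorem tree_of_gen {w : List (Symbol ℤ G.NT)} {v : List ℤ} (h : Gen G w v) : ∀ {a b : ℕ},
    Fire v a b → b ∈ vals G.rules w a := by
  induction h with
  | nil =>
    intro a b h
    obtain rfl := fire_nil.1 h
    exact ⟨FT.nil a, trivial, rfl, rfl, rfl⟩
  | term h ih =>
    intro a b h
    obtain ⟨c, hc, h⟩ := fire_cons.1 h
    obtain ⟨t, vt, wt, lt, ht⟩ := ih h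
    exact ⟨FT.term a _ t, ⟨by rw [lt, hc], vt⟩, by simp [FT.word, wt], rfl, ht⟩
  | nt hr h₁ h₂ ih₁ ih₂ =>
    intro a b h
    obtain ⟨c, hc, h⟩ := fire_append.1 h
    obtain ⟨s, vs, ws, ls, hs⟩ := ih₁ hc
    obtain ⟨t, vt, wt, lt, ht⟩ := ih₂ h
    exact ⟨FT.nt a _ s t, ⟨hr, ws, ls, hs.trans lt.symm, vs, vt⟩, by simp [FT.word, wt], rfl, ht⟩

theorem gen_of_tree (t : FT G.NT) (ht : FT.Valid G.rules t) :
    ∃ v, Gen G (FT.word t) v ∧ Fire v (FT.lo t) (FT.hi t) := by
  induction t with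
  | nil x => exact ⟨[], Gen.nil, fire_nil.2 rfl⟩
  | term x z t ih =>
    obtain ⟨v, h1, h2⟩ := ih ht.2
    exact ⟨z :: v, Gen.term h1, fire_cons.2 ⟨_, ht.1, h2⟩⟩
  | nt x r s t ih₁ ih₂ =>
    obtain ⟨h1, h2, h3, h4, h5, h6⟩ := ht
    obtain ⟨v₁, a1, a2⟩ := ih₁ h5
    obtain ⟨v₂, b1, b2⟩ := ih₂ h6
    refine ⟨v₁ ++ v₂, Gen.nt h1 (h2 ▸ a1) b1, fire_append.2 ⟨FT.lo t, ?_, b2⟩⟩
    change Fire v₁ x (FT.lo t)
    rw [← h3, ← h4]
    exact a2

/-- the set of values reached through a word -/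
theorem reach_eq_vals (w : List (Symbol ℤ G.NT)) (a : ℕ) :
    {b | ∃ v : List ℤ, G.Derives w (v.map Symbol.terminal) ∧ Fire v a b} = vals G.rules w a := by
  ext b
  constructor
  · rintro ⟨v, h1, h2⟩
    exact tree_of_gen (gen_of_derives h1) h2
  · rintro ⟨t, vt, wt, lt, ht⟩
    obtain ⟨v, h1, h2⟩ := gen_of_tree t vt
    refine ⟨v, derives_of_gen (wt ▸ h1), ?_⟩
    rw [← lt, ← ht]
    exact h2

/-- a finite set of words as required -/
theorem exists_closed {N : Type*} (R : Finset (ContextFreeRule ℤ N)) (w : List (Symbol ℤ N)) :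
    ∃ W : Set (List (Symbol ℤ N)), Closed R W ∧ w ∈ W := by
  refine ⟨{u | u <:+ w} ∪ ⋃ r ∈ R, {u | u <:+ r.output}, ⟨?_, ?_, ?_⟩, ?_⟩
  · have hfin : ∀ v : List (Symbol ℤ N), {u | u <:+ v}.Finite := by
      intro v
      refine (v.tails.finite_toSet).subset ?_
      intro u hu
      simpa using hu
    refine (hfin w).union ?_
    exact R.finite_toSet.biUnion fun r _ => hfin _
  · rintro a u (h | h)
    · exact Or.inl ((List.suffix_cons a u).trans h)
    · simp only [Set.mem_iUnion] at h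
      obtain ⟨r, hr, h⟩ := h
      refine Or.inr ?_
      simp only [Set.mem_iUnion]
      exact ⟨r, hr, (List.suffix_cons a u).trans h⟩
  · intro r hr
    refine Or.inr ?_
    simp only [Set.mem_iUnion]
    exact ⟨r, hr, List.suffix_rfl⟩
  · exact Or.inl List.suffix_rfl

theorem reach_semilinear (w : List (Symbol ℤ G.NT)) (a : ℕ) :
    IsSemilinearSet
      {b | ∃ v : List ℤ, G.Derives w (v.map Symbol.terminal) ∧ Fire v a b} := by
  rw [reach_eq_vals]
  obtain ⟨W, hW, hw⟩ := exists_closed G.rules w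
  exact vals_semilinear hW hw a

end Pool.Agent.E8helper87.GvasTree
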